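import Pool.Agent.H37.RE14

/-!
# MP_70d4d1_co: for which pairs is the largest smallest eigenvalue `-2`?

For `D ≥ 1300` the orders `n` (not multiples of `D + 1`) with `μ(n, D) = -2` are exactly the
elements of an explicit additive semigroup; all other orders have `μ(n, D) < -2`. The semigroup
contains every admissible `n ≥ (1 + o(1)) D^(3/2)` and misses long intervals below that.
-/

namespace Pool.Agent.Results.MP_70d4d1_co.SparseThreshold

open Pool.Agent.H37.RE0 Pool.Agent.H37.RE4 Pool.Agent.H37.RE5 Pool.Agent.H37.RE6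
  Pool.Agent.H37.RE10 Pool.Agent.H37.RE11 Pool.Agent.H37.RE14

theorem result :
    (∀ D n : ℕ, 3 ≤ D → ¬ (D + 1) ∣ n → n ∈ AddSubmonoid.closure (sizes2 D) →
      IsGreatest {t : ℝ | ∃ G : SimpleGraph (Fin n), Reg G D ∧ lamMin G = t} (-2)) ∧
    (∀ D n : ℕ, 1300 ≤ D → n ∉ AddSubmonoid.closure (sizes2 D) →
      ∀ G : SimpleGraph (Fin n), Reg G D → lamMin G < -2) ∧
    (∀ D n : ℕ, 3 ≤ D → Even (n * D) →
      ((D + 1) * (Nat.sqrt (D + 1) + 3 * Nat.sqrt (2 * Nat.sqrt (D + 1)) + 2) ≤ n ∨
        D * (D + 1) ≤ n ∨ (Odd D ∧ D * (D - 1) ≤ n) ∨ (D = 4 ∧ 8 ≤ n)) →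
      n ∈ AddSubmonoid.closure (sizes2 D)) ∧
    (∀ D n j : ℕ, 400 ≤ D → j * (D + 2) < n → n + j * (j + 1) < (j + 1) * (D + 1) →
      n ∉ AddSubmonoid.closure (sizes2 D) ∧
        ∀ G : SimpleGraph (Fin n), Reg G D → lamMin G < -2) := by
  have h1 : ∀ D n : ℕ, 3 ≤ D → ¬ (D + 1) ∣ n → n ∈ AddSubmonoid.closure (sizes2 D) →
      IsGreatest {t : ℝ | ∃ G : SimpleGraph (Fin n), Reg G D ∧ lamMin G = t} (-2) :=
    fun D n hD hn hmem => greatest hD hn (rep_of_closure2 hmem)
  refine ⟨h1, ?_, ?_, ?_⟩
  · intro D n hD hn G hG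
    exact below hD hn G hG
  · intro D n hD hev h
    have hmem : n ∈ AddSubmonoid.closure (sizes D) := by
      rcases h with h | h | ⟨ho, h⟩ | ⟨h4, h8⟩
      · exact mem_sqrt hev hD h
      · rcases Nat.even_or_odd D with he | ho
        · exact mem_even he h
        · have hne : Even n := by
            rw [Nat.even_mul] at hev
            rcases hev with h' | h'
            · exact h'
            · exact absurd h' (Nat.not_even_iff_odd.2 ho)
          exact mem_odd hD ho hne (le_trans (Nat.mul_le_mul_left _ (by omega)) h)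
      · have hne : Even n := by
          rw [Nat.even_mul] at hev
          rcases hev with h' | h'
          · exact h'
          · exact absurd h' (Nat.not_even_iff_odd.2 ho)
        exact mem_odd hD ho hne h
      · subst h4
        exact mem_four n h8
    exact AddSubmonoid.closure_mono (sizes_sub D) hmem
  · intro D n j hD hj1 hj2
    have hgap : ∀ G : SimpleGraph (Fin n), Reg G D → lamMin G < -2 :=
      fun G hG => gap_all hD G hG hj1 hj2
    refine ⟨fun hmem => ?_, hgap⟩
    have hndvd : ¬ (D + 1) ∣ n := by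
      rintro ⟨k, hk⟩
      have a1 : (D + 1) * j < (D + 1) * k := by
        rw [← hk]
        have : j * (D + 2) = (D + 1) * j + j := by ring
        omega
      have a2 : (D + 1) * k < (D + 1) * (j + 1) := by
        rw [← hk]
        have : (j + 1) * (D + 1) = (D + 1) * (j + 1) := by ring
        have h0 : 0 ≤ j * (j + 1) := Nat.zero_le _
        omega
      have b1 := Nat.lt_of_mul_lt_mul_left a1
      have b2 := Nat.lt_of_mul_lt_mul_left a2
      omega
    obtain ⟨G, hG, he⟩ := (h1 D n (by omega) hndvd hmem).1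
    have := hgap G hG
    rw [he] at this
    exact lt_irrefl _ this

end Pool.Agent.Results.MP_70d4d1_co.SparseThreshold
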